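import Pool.Agent.Y208.BH.Stm

/-!
# Job BH-TF3: Thompson's group acts faithfully on the positive dyadic rationals
-/

set_option autoImplicit false

namespace Y572.BH

open Y208.BH

section

variable {G : Type} [Group G] (X : ℕ → G)

/-- positive words -/
def W (l : List ℕ) : G := (l.map X).prod

theorem W_nil : W X [] = 1 := rfl

theorem W_cons (k : ℕ) (l : List ℕ) : W X (k :: l) = X k * W X l := by
  simp [W]

theorem W_append (l l' : List ℕ) : W X (l ++ l') = W X l * W X l' := by
  simp [W]

theorem W_single (k : ℕ) : W X [k] = X k := by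
  simp [W]

theorem mul_inv_word (hX : TRel X) (q : List ℕ) : ∀ n : ℕ, ∃ r q' : List ℕ,
    W X q * (X n)⁻¹ = (W X r)⁻¹ * W X q' := by
  induction q using List.reverseRecOn with
  | nil => intro n; exact ⟨[n], [], by simp [W_nil, W_single]⟩
  | append_singleton q0 k ih =>
    intro n
    rcases lt_trichotomy k n with h | h | h
    · obtain ⟨r, q', e⟩ := ih (n + 1)
      refine ⟨r, q' ++ [k], ?_⟩
      rw [W_append, W_append, W_single, ← mul_assoc, ← e, mul_assoc, mul_assoc]
      congr 1
      rw [eq_inv_mul_iff_mul_eq, ← mul_assoc, hX k n h, mul_inv_cancel_right]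
    · subst h
      exact ⟨[], q0, by simp [W_append, W_single, W_nil]⟩
    · obtain ⟨r, q', e⟩ := ih n
      refine ⟨r, q' ++ [k + 1], ?_⟩
      rw [W_append, W_append, W_single, W_single, ← mul_assoc, ← e, mul_assoc, mul_assoc]
      congr 1
      rw [eq_inv_mul_iff_mul_eq, ← mul_assoc, ← hX n k h, mul_inv_cancel_right]

/-- the property of `h` that right multiplication by `h` preserves the fractions -/
def Q (h : G) : Prop := ∀ p q : List ℕ, ∃ p' q' : List ℕ,
  (W X p)⁻¹ * W X q * h = (W X p')⁻¹ * W X q'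

theorem Q_gen (n : ℕ) : Q X (X n) := fun p q =>
  ⟨p, q ++ [n], by rw [W_append, W_single, mul_assoc]⟩

theorem Q_inv (hX : TRel X) (n : ℕ) : Q X (X n)⁻¹ := by
  intro p q
  obtain ⟨r, q', e⟩ := mul_inv_word X hX q n
  refine ⟨r ++ p, q', ?_⟩
  rw [mul_assoc, e, W_append, mul_inv_rev, mul_assoc]

theorem Q_mul {g h : G} (hg : Q X g) (hh : Q X h) : Q X (g * h) := by
  intro p q
  obtain ⟨p1, q1, e1⟩ := hg p q
  obtain ⟨p2, q2, e2⟩ := hh p1 q1
  exact ⟨p2, q2, by rw [← mul_assoc, e1, e2]⟩

theorem exists_frac (hX : TRel X) (hgen : Subgroup.closure (Set.range X) = ⊤) (g : G) :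
    ∃ p q : List ℕ, g = (W X p)⁻¹ * W X q := by
  have key : Q X g ∧ Q X g⁻¹ := by
    have hg : g ∈ Subgroup.closure (Set.range X) := by rw [hgen]; trivial
    induction hg using Subgroup.closure_induction with
    | mem x hx =>
      obtain ⟨n, rfl⟩ := hx
      exact ⟨Q_gen X n, Q_inv X hX n⟩
    | one =>
      constructor
      · intro p q; exact ⟨p, q, by simp⟩
      · intro p q; exact ⟨p, q, by simp⟩
    | mul x y _ _ hx hy =>
      refine ⟨Q_mul X hx.1 hy.1, ?_⟩
      rw [mul_inv_rev]
      exact Q_mul X hy.2 hx.2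
    | inv x _ hx => exact ⟨hx.2, by rw [inv_inv]; exact hx.1⟩
  obtain ⟨p, q, e⟩ := key.1 [] []
  exact ⟨p, q, by rw [← e]; simp [W_nil]⟩

theorem move (hX : TRel X) (m : ℕ) (l : List ℕ) (hl : ∀ k ∈ l, m + 1 ≤ k) :
    X m * W X l = W X (l.map (· + 1)) * X m := by
  induction l with
  | nil => simp [W_nil]
  | cons k l ih =>
    rw [List.map_cons, W_cons, W_cons, ← mul_assoc,
      ← hX m k (by have := hl k (by simp); omega), mul_assoc,
      ih (fun k hk => hl k (by simp [hk])), mul_assoc]

theorem extract (hX : TRel X) (m : ℕ) (l : List ℕ) (hl : ∀ k ∈ l, m ≤ k) :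
    ∃ (l' : List ℕ) (a : ℕ), (∀ k ∈ l', m + 1 ≤ k) ∧ W X l = W X l' * X m ^ a ∧
      l'.length + a = l.length ∧ (m ∈ l → 1 ≤ a) := by
  induction l with
  | nil => exact ⟨[], 0, by simp, by simp [W_nil], rfl, by simp⟩
  | cons k l ih =>
    obtain ⟨l', a, h1, h2, h3, h4⟩ := ih (fun k hk => hl k (by simp [hk]))
    by_cases hk : k = m
    · subst hk
      refine ⟨l'.map (· + 1), a + 1, ?_, ?_, ?_, fun _ => by omega⟩
      · intro j hj
        rw [List.mem_map] at hj
        obtain ⟨i, hi, rfl⟩ := hj
        have := h1 i hi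
        omega
      · rw [W_cons, h2, ← mul_assoc, move X hX k l' h1, mul_assoc, pow_succ']
      · simp only [List.length_map, List.length_cons]; omega
    · have hk' : m + 1 ≤ k := by have := hl k (by simp); omega
      refine ⟨k :: l', a, ?_, ?_, ?_, ?_⟩
      · intro j hj
        rcases List.mem_cons.1 hj with rfl | hj
        · exact hk'
        · exact h1 j hj
      · rw [W_cons, W_cons, h2, mul_assoc]
      · simp only [List.length_cons]; omega
      · intro h
        rcases List.mem_cons.1 h with h | h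
        · exact absurd h.symm hk
        · exact h4 h

end

/-- the point `m + 2⁻ᶜ` -/
def dp (m c : ℕ) : Dy := ⟨m + 1 / 2 ^ c, by positivity, c, m * 2 ^ c + 1, by
  push_cast
  field_simp⟩

theorem dp_val (m c : ℕ) : ((dp m c : Dy) : ℚ) = m + 1 / 2 ^ c := rfl

section

variable {G : Type} [Group G] [MulAction G Dy] {X : ℕ → G}

theorem act_dp (hX : TAct G X) (m c : ℕ) : X m • dp m (c + 1) = dp m c := by
  apply Subtype.ext
  rw [hX.act, dp_val, dp_val, th]
  have h0 : (0 : ℚ) < 1 / 2 ^ (c + 1) := by positivity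
  have h1 : (1 : ℚ) / 2 ^ (c + 1) ≤ 1 := by
    rw [div_le_one (by positivity)]
    exact one_le_pow₀ (by norm_num)
  rw [if_neg (by linarith), if_pos (by linarith)]
  rw [pow_succ]
  field_simp
  ring

theorem act_pow (hX : TAct G X) (m a c : ℕ) : X m ^ a • dp m (c + a) = dp m c := by
  induction a with
  | zero => simp
  | succ a ih =>
    rw [pow_succ, mul_smul, ← add_assoc, act_dp hX, ih]

theorem act_fix (hX : TAct G X) (m : ℕ) (l : List ℕ) (hl : ∀ k ∈ l, m + 1 ≤ k) (t : Dy)
    (ht : (t : ℚ) ≤ m + 1) : W X l • t = t := by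
  induction l with
  | nil => rw [W_nil, one_smul]
  | cons k l ih =>
    rw [W_cons, mul_smul, ih (fun k hk => hl k (by simp [hk]))]
    apply Subtype.ext
    rw [hX.act, th, if_pos]
    have : ((m + 1 : ℕ) : ℚ) ≤ k := by exact_mod_cast hl k (by simp)
    push_cast at this
    linarith

theorem dp_le (m c : ℕ) : ((dp m c : Dy) : ℚ) ≤ m + 1 := by
  rw [dp_val]
  have h1 : (1 : ℚ) / 2 ^ c ≤ 1 := by
    rw [div_le_one (by positivity)]
    exact one_le_pow₀ (by norm_num)
  linarith

theorem dp_inj {m a b : ℕ} (h : dp m a = dp m b) : a = b := by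
  have h1 := congrArg (fun x : Dy => (x : ℚ)) h
  simp only [dp_val] at h1
  have h2 : (1 : ℚ) / 2 ^ a = 1 / 2 ^ b := by linarith
  have h3 : (2 : ℚ) ^ a = 2 ^ b := by
    have ha : (2 : ℚ) ^ a ≠ 0 := by positivity
    have hb : (2 : ℚ) ^ b ≠ 0 := by positivity
    field_simp at h2
    exact h2.symm
  exact pow_right_injective₀ (by norm_num) (by norm_num) h3

theorem words (hX : TAct G X) : ∀ (N : ℕ) (p q : List ℕ), p.length + q.length ≤ N →
    (∀ t : Dy, W X p • t = W X q • t) → W X p = W X q := by
  intro N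
  induction N with
  | zero =>
    intro p q h _
    have hp : p = [] := List.length_eq_zero_iff.1 (by omega)
    have hq : q = [] := List.length_eq_zero_iff.1 (by omega)
    rw [hp, hq]
  | succ N ih =>
    intro p q h hpq
    by_cases hne : p ++ q = []
    · have := List.append_eq_nil_iff.1 hne
      rw [this.1, this.2]
    · obtain ⟨m, hm, hmin⟩ : ∃ m ∈ p ++ q, ∀ k ∈ p ++ q, m ≤ k := by
        obtain ⟨k0, hk0⟩ := List.exists_mem_of_ne_nil _ hne
        classical
        have hex : ∃ k, k ∈ p ++ q := ⟨k0, hk0⟩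
        exact ⟨Nat.find hex, Nat.find_spec hex, fun k hk => Nat.find_min' hex hk⟩
      obtain ⟨p', a, hp1, hp2, hp3, hp4⟩ := extract X hX.rel m p
        (fun k hk => hmin k (List.mem_append_left _ hk))
      obtain ⟨q', b, hq1, hq2, hq3, hq4⟩ := extract X hX.rel m q
        (fun k hk => hmin k (List.mem_append_right _ hk))
      have hab : a = b := by
        have h1 : W X p • dp m (b + a) = dp m b := by
          rw [hp2, mul_smul, act_pow hX, act_fix hX m p' hp1 _ (dp_le m b)]
        have h2 : W X q • dp m (a + b) = dp m a := by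
          rw [hq2, mul_smul, act_pow hX, act_fix hX m q' hq1 _ (dp_le m a)]
        have h3 : dp m b = dp m a := by
          rw [← h1, ← h2, hpq, add_comm]
        exact (dp_inj h3).symm
      subst hab
      have ha : 1 ≤ a := by
        rcases List.mem_append.1 hm with h | h
        · exact hp4 h
        · exact hq4 h
      have hpq' : ∀ t : Dy, W X p' • t = W X q' • t := by
        intro t
        have := hpq ((X m ^ a)⁻¹ • t)
        rw [hp2, hq2, mul_smul, mul_smul, smul_inv_smul] at this
        exact this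
      rw [hp2, hq2, ih p' q' (by omega) hpq']

theorem t_TF3 : S_TF3 := by
  intro G _ _ X hX g hg
  obtain ⟨p, q, e⟩ := exists_frac X hX.rel hX.gen g
  have hpq : ∀ t : Dy, W X p • t = W X q • t := by
    intro t
    have := hg t
    rw [e, mul_smul, inv_smul_eq_iff] at this
    exact this.symm
  rw [e, words hX _ p q le_rfl hpq, inv_mul_cancel]

end

end Y572.BH
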